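import Pool.Agent.H11.CV.Targets

/-!
# Vinogradov mean values at the critical exponent: modules L0, F1, CC, CS, BN, PI, DD, A0
-/

set_option autoImplicit false

open Finset Polynomial

namespace Pool.Agent.H11.CV

theorem KK_pos {d : ℕ} (hd : 1 ≤ d) : 1 ≤ KK d := by
  unfold KK
  rw [Nat.le_div_iff_mul_le (by norm_num)]
  nlinarith

theorem En_nonneg {G : Type} [AddCommGroup G] [Fintype G] (p n : ℕ) (f : ℕ → G → ℂ) :
    0 ≤ En p n f := by
  unfold En
  exact Finset.sum_nonneg (fun x _ => Finset.sum_nonneg (fun g _ => by positivity))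

/-- L0 -/
theorem l0 : T_L0 := by
  intro p d hp hd
  refine ⟨?_, ?_, ?_⟩
  · intro G _ _ τ f _ hb α hα
    have h0 : ∀ g, ∑ x ∈ range (p ^ 0), f x g = f 0 g := by intro g; simp
    have hK : 1 ≤ KK d := KK_pos hd
    have hE : En p 0 f = ∑ g, ‖f 0 g‖ ^ 2 := by unfold En; simp
    rw [hE]
    simp only [zero_mul, pow_zero, mul_one, one_mul]
    have h0' : ∀ g, ∑ x ∈ range 1, f x g = f 0 g := by intro g; simp
    simp only [h0']
    unfold cnt
    rw [← nsmul_eq_mul, ← Finset.sum_const]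
    refine le_trans (Finset.sum_le_sum (g := fun g => ‖f 0 g‖ ^ 2) ?_)
      (Finset.sum_le_sum_of_subset_of_nonneg (Finset.filter_subset _ _)
        (fun g _ _ => by positivity))
    intro g hg
    have h1 : α ≤ ‖f 0 g‖ := by
      have := (Finset.mem_filter.1 hg).2
      simpa using this
    have h2 : ‖f 0 g‖ ≤ 1 := hb 0 (by positivity) g
    calc α ^ (2 * KK d) ≤ ‖f 0 g‖ ^ (2 * KK d) := pow_le_pow_left₀ hα.le h1 _
      _ ≤ ‖f 0 g‖ ^ 2 := pow_le_pow_of_le_one (norm_nonneg _) h2 (by omega)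
  · intro n D D' hD h G _ _ τ f hf hb α hα
    refine le_trans (h G τ f hf hb α hα) ?_
    have h1 : 0 ≤ (p : ℝ) ^ (n * (KK d - 1)) := by positivity
    exact mul_le_mul_of_nonneg_right (mul_le_mul_of_nonneg_right hD h1) (En_nonneg _ _ _)
  · intro n D D' hD h G _ _ τ u hu
    refine le_trans (h G τ u hu) ?_
    have h1 : 0 ≤ (p : ℝ) ^ (n * (KK d - 1)) := by positivity
    exact mul_le_mul_of_nonneg_right (mul_le_mul_of_nonneg_right hD h1)
      (Finset.sum_nonneg (fun x _ => Finset.sum_nonneg (fun g _ => by positivity)))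

/-- F1 -/
theorem f1 (hL2 : T_L2) (hRS : T_RS) : T_F1 := by
  intro p n hp G _ _ τ u hu
  have h1 : KK 1 = 1 := rfl
  rw [h1]
  have h2 := hL2 p 1 (1 * n) n G τ (range (p ^ n)) (fun x => (x : ℤ)) u (fun _ => 1) hp le_rfl
    (by omega) (fun i hi => hu i (Finset.mem_range.1 hi)) ?_ (fun _ => rfl)
  · simp only [one_mul] at h2
    simp only [mul_one, Nat.sub_self, mul_zero, pow_zero, one_mul]
    exact h2.le
  · intro i hi j hj hij hdvd
    exact hij ((hRS p n 0 hp).2.2.1 i j (Finset.mem_range.1 hi) (Finset.mem_range.1 hj) hdvd)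

/-- CC -/
theorem cc_t : T_CC := by
  intro p n j hp hn
  have hn' : (0 : ℝ) < n := by exact_mod_cast hn
  have hp' : (0 : ℝ) ≤ (p : ℝ) ^ n := by positivity
  have h1 : (1 : ℝ) ≤ 1 + 1 / (n : ℝ) := by
    have : (0 : ℝ) ≤ 1 / (n : ℝ) := by positivity
    linarith
  refine ⟨fun hj => ⟨?_, ?_⟩, ?_, ?_⟩
  · unfold cc
    exact le_mul_of_one_le_right hp' (one_le_pow₀ h1)
  · unfold cc
    have h2 : (1 + 1 / (n : ℝ)) ^ j ≤ (1 + 1 / (n : ℝ)) ^ n := pow_le_pow_right₀ h1 hj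
    have h3 : 1 + 1 / (n : ℝ) ≤ Real.exp (1 / (n : ℝ)) := by
      have := Real.add_one_le_exp (1 / (n : ℝ)); linarith
    have h4 : (1 + 1 / (n : ℝ)) ^ n ≤ Real.exp (1 / (n : ℝ)) ^ n :=
      pow_le_pow_left₀ (by linarith) h3 n
    have h5 : Real.exp (1 / (n : ℝ)) ^ n = Real.exp 1 := by
      rw [← Real.exp_nat_mul]; congr 1; field_simp
    have h6 : Real.exp 1 < 3 := lt_trans Real.exp_one_lt_d9 (by norm_num)
    have h7 : (1 + 1 / (n : ℝ)) ^ j ≤ 3 := by linarith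
    rw [mul_comm]
    exact mul_le_mul_of_nonneg_right h7 hp'
  · unfold cc
    rw [pow_succ]
    ring
  · unfold cc
    simp

/-- splitting `cs` -/
theorem cs_split (hRS : T_RS) {p m a c s b r : ℕ} {G : Type} [AddCommGroup G]
    (τ : ℤ[X] →+ G) (F : ℕ → G → ℂ) (J : ℕ) (hp : 1 < p) (hs : s + b ≤ a) (g : G) :
    cs p m a c τ F r s J g =
      ∑ ζ ∈ range (p ^ b), cs p m a c τ F r (s + b) (J + p ^ s * ζ) g := by
  unfold cs
  have e : a - s = b + (a - (s + b)) := by omega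
  rw [e, (hRS p b (a - (s + b)) hp).1]
  refine Finset.sum_congr rfl (fun ζ _ => Finset.sum_congr rfl (fun z _ => ?_))
  congr 2
  rw [pow_add]; ring

/-- CS -/
theorem cs_t (hCI : T_CI) (hRS : T_RS) : T_CS := by
  intro p d m a b s r D G _ _ τ F J hp hdp hd hb hs hm hr hF hJ hflat
  obtain ⟨τ', hτ'⟩ := hCI p d m a b s r G τ F J hp hdp hd hb hs hm hr hF hJ
  have hs' : s + b ≤ a := by
    have : b ≤ (d - 1) * b := Nat.le_mul_of_pos_left _ (by omega)
    omega
  have h1 := hflat G τ' _ hτ'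
  have h2 : ∀ g, cs p m a ((d - 1) * b) τ F r s J g =
      ∑ ζ ∈ range (p ^ b), cs p m a ((d - 1) * b) τ F r (s + b) (J + p ^ s * ζ) g :=
    cs_split hRS τ F J hp.one_lt hs'
  simp only [h2]
  exact h1

/-- DD -/
theorem dd : T_DD := by
  intro p a q G _ F ξ g hp
  obtain ⟨i₀, hi₀, hmax⟩ := Finset.exists_max_image (range p) (fun i => ‖F (ξ + p ^ a * i) g‖)
    ⟨0, Finset.mem_range.2 (by omega)⟩
  set M := ‖F (ξ + p ^ a * i₀) g‖ with hM
  have hM0 : 0 ≤ M := norm_nonneg _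
  have h1 : ‖dlt p a F ξ g‖ ≤ (p : ℝ) ^ 2 * M ^ 2 := by
    unfold dlt
    calc ‖∑ i ∈ range p, ∑ i' ∈ (range p).filter (fun i' => i' ≠ i),
          F (ξ + p ^ a * i) g * (starRingEnd ℂ) (F (ξ + p ^ a * i') g)‖
        ≤ ∑ i ∈ range p, ‖∑ i' ∈ (range p).filter (fun i' => i' ≠ i),
          F (ξ + p ^ a * i) g * (starRingEnd ℂ) (F (ξ + p ^ a * i') g)‖ := norm_sum_le _ _
      _ ≤ ∑ i ∈ range p, (p : ℝ) * M ^ 2 := by
          refine Finset.sum_le_sum (fun i hi => ?_)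
          calc ‖∑ i' ∈ (range p).filter (fun i' => i' ≠ i),
                F (ξ + p ^ a * i) g * (starRingEnd ℂ) (F (ξ + p ^ a * i') g)‖
              ≤ ∑ i' ∈ (range p).filter (fun i' => i' ≠ i),
                ‖F (ξ + p ^ a * i) g * (starRingEnd ℂ) (F (ξ + p ^ a * i') g)‖ :=
                norm_sum_le _ _
            _ ≤ ∑ i' ∈ range p,
                ‖F (ξ + p ^ a * i) g * (starRingEnd ℂ) (F (ξ + p ^ a * i') g)‖ :=
                Finset.sum_le_sum_of_subset_of_nonneg (Finset.filter_subset _ _)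
                  (fun _ _ _ => norm_nonneg _)
            _ ≤ ∑ i' ∈ range p, M ^ 2 := by
                refine Finset.sum_le_sum (fun i' hi' => ?_)
                rw [norm_mul, RCLike.norm_conj, pow_two]
                exact mul_le_mul (hmax i hi) (hmax i' hi') (norm_nonneg _) hM0
            _ = (p : ℝ) * M ^ 2 := by
                rw [Finset.sum_const, Finset.card_range, nsmul_eq_mul]
      _ = (p : ℝ) ^ 2 * M ^ 2 := by
          rw [Finset.sum_const, Finset.card_range, nsmul_eq_mul]; ring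
  calc ‖dlt p a F ξ g‖ ^ q ≤ ((p : ℝ) ^ 2 * M ^ 2) ^ q := pow_le_pow_left₀ (norm_nonneg _) h1 q
    _ = (p : ℝ) ^ (2 * q) * M ^ (2 * q) := by rw [mul_pow, ← pow_mul, ← pow_mul]
    _ ≤ (p : ℝ) ^ (2 * q) * ∑ i ∈ range p, ‖F (ξ + p ^ a * i) g‖ ^ (2 * q) := by
        refine mul_le_mul_of_nonneg_left ?_ (by positivity)
        exact Finset.single_le_sum (f := fun i => ‖F (ξ + p ^ a * i) g‖ ^ (2 * q))
          (fun i _ => by positivity) hi₀

theorem norm_sq_split (p : ℕ) (z : ℕ → ℂ) :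
    ((‖∑ i ∈ range p, z i‖ ^ 2 - ∑ i ∈ range p, ‖z i‖ ^ 2 : ℝ) : ℂ) =
      ∑ i ∈ range p, ∑ i' ∈ (range p).filter (fun i' => i' ≠ i),
        z i * (starRingEnd ℂ) (z i') := by
  have h1 : ((‖∑ i ∈ range p, z i‖ ^ 2 : ℝ) : ℂ) =
      ∑ i ∈ range p, ∑ i' ∈ range p, z i * (starRingEnd ℂ) (z i') := by
    rw [Complex.ofReal_pow, ← Complex.mul_conj', map_sum, Finset.sum_mul_sum]
  have h2 : ∀ i, ((‖z i‖ ^ 2 : ℝ) : ℂ) = z i * (starRingEnd ℂ) (z i) := by
    intro i
    rw [Complex.ofReal_pow, ← Complex.mul_conj']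
  rw [Complex.ofReal_sub, h1, Complex.ofReal_sum, ← Finset.sum_sub_distrib]
  refine Finset.sum_congr rfl (fun i hi => ?_)
  rw [h2, ← Finset.sum_filter_add_sum_filter_not (range p) (fun i' => i' ≠ i)]
  have h3 : (range p).filter (fun i' => ¬ i' ≠ i) = {i} := by
    ext i'
    simp only [Finset.mem_filter, Finset.mem_singleton, not_not]
    exact ⟨fun h => h.2, fun h => by rw [h]; exact ⟨hi, rfl⟩⟩
  rw [h3, Finset.sum_singleton]
  ring

/-- PI -/
theorem pi_t (hRS : T_RS) : T_PI := by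
  intro p n j lam G _ f g hp hj
  have e : n - j = (n - (j + 1)) + 1 := by omega
  unfold sq
  rw [e, (hRS p (n - (j + 1)) 1 hp).1, ← Finset.sum_sub_distrib, Complex.ofReal_sum]
  refine Finset.sum_congr rfl (fun ξ _ => ?_)
  unfold dlt
  rw [pow_one]
  exact norm_sq_split p (fun i => pt p n lam f j (ξ + p ^ (n - (j + 1)) * i) g)

/-- BN -/
theorem bn : T_BN := by
  intro p d α y z hp hd hα h1 h2 h3
  by_cases hc : ∃ c : ℕ, c < p ∧ α / (2 * d) ≤ ‖y c‖
  · exact Or.inl hc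
  right
  push Not at hc
  have hd0 : (0 : ℝ) < d := by exact_mod_cast hd
  have hp0 : (0 : ℝ) < p := by exact_mod_cast (by omega : 0 < p)
  have hz : ∀ c : ℕ, c < p → ‖z c‖ ≤ 5 * α / (8 * d) := by
    intro c hcp
    have h4 := hc c hcp
    have h5 := h3 c hcp
    have h6 : ‖z c‖ ≤ ‖y c‖ + ‖y c - z c‖ := by
      have := norm_sub_norm_le (z c) (y c)
      rw [norm_sub_rev (z c) (y c)] at this
      linarith
    have h7 : α / (2 * d) + α / (8 * d) = 5 * α / (8 * d) := by field_simp; ring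
    linarith
  set A := (range p).filter (fun c => α / (4 * p) ≤ ‖z c‖) with hA
  by_cases hcard : d ≤ A.card
  · obtain ⟨B, hB, hBc⟩ := Finset.exists_subset_card_eq hcard
    refine ⟨fun i => (B.equivFin.symm (Fin.cast hBc.symm i) : ℕ), ?_, ?_, ?_⟩
    · intro i i' h
      have h' := Subtype.ext h
      have h'' := B.equivFin.symm.injective h'
      exact Fin.cast_injective _ h''
    · intro i
      have := hB (B.equivFin.symm (Fin.cast hBc.symm i)).2
      rw [hA, Finset.mem_filter, Finset.mem_range] at this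
      exact this.1
    · intro i
      have := hB (B.equivFin.symm (Fin.cast hBc.symm i)).2
      rw [hA, Finset.mem_filter, Finset.mem_range] at this
      exact this.2
  · exfalso
    push Not at hcard
    have h4 : α - α / (8 * d) ≤ ‖∑ c ∈ range p, z c‖ := by
      have := norm_sub_norm_le (∑ c ∈ range p, y c) (∑ c ∈ range p, z c)
      linarith
    have h5 : ‖∑ c ∈ range p, z c‖ ≤ ∑ c ∈ range p, ‖z c‖ := norm_sum_le _ _
    have h6 : ∑ c ∈ range p, ‖z c‖ = ∑ c ∈ A, ‖z c‖ +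
        ∑ c ∈ (range p).filter (fun c => ¬ α / (4 * p) ≤ ‖z c‖), ‖z c‖ :=
      (Finset.sum_filter_add_sum_filter_not (range p) _ _).symm
    have h7 : ∑ c ∈ A, ‖z c‖ ≤ (A.card : ℝ) * (5 * α / (8 * d)) := by
      rw [← nsmul_eq_mul]
      refine Finset.sum_le_card_nsmul _ _ _ (fun c hcA => ?_)
      rw [hA, Finset.mem_filter, Finset.mem_range] at hcA
      exact hz c hcA.1
    have h8 : ∑ c ∈ (range p).filter (fun c => ¬ α / (4 * p) ≤ ‖z c‖), ‖z c‖ ≤ α / 4 := by
      have h9 : ∑ c ∈ (range p).filter (fun c => ¬ α / (4 * p) ≤ ‖z c‖), ‖z c‖ ≤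
          (((range p).filter (fun c => ¬ α / (4 * p) ≤ ‖z c‖)).card : ℝ) * (α / (4 * p)) := by
        rw [← nsmul_eq_mul]
        refine Finset.sum_le_card_nsmul _ _ _ (fun c hcA => ?_)
        rw [Finset.mem_filter] at hcA
        exact (not_le.1 hcA.2).le
      have h10 : (((range p).filter (fun c => ¬ α / (4 * p) ≤ ‖z c‖)).card : ℝ) ≤ p := by
        have := Finset.card_filter_le (range p) (fun c => ¬ α / (4 * p) ≤ ‖z c‖)
        rw [Finset.card_range] at this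
        exact_mod_cast this
      have h11 : (((range p).filter (fun c => ¬ α / (4 * p) ≤ ‖z c‖)).card : ℝ) *
          (α / (4 * p)) ≤ p * (α / (4 * p)) :=
        mul_le_mul_of_nonneg_right h10 (by positivity)
      have h12 : (p : ℝ) * (α / (4 * p)) = α / 4 := by field_simp
      linarith
    have h13 : (A.card : ℝ) ≤ d - 1 := by
      have : A.card + 1 ≤ d := hcard
      have h' : ((A.card + 1 : ℕ) : ℝ) ≤ (d : ℝ) := by exact_mod_cast this
      push_cast at h'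
      linarith
    have h14 : (A.card : ℝ) * (5 * α / (8 * d)) ≤ (d - 1) * (5 * α / (8 * d)) :=
      mul_le_mul_of_nonneg_right h13 (by positivity)
    have h15 : ((d : ℝ) - 1) * (5 * α / (8 * d)) = 5 * α / 8 - 5 * (α / (8 * d)) := by
      field_simp
    have h16 : 0 < α / (8 * d) := by positivity
    linarith

/-- A0 -/
theorem a0 : T_A0 := by
  intro C₀ P hP
  obtain ⟨M, hM⟩ := pow_unbounded_of_one_lt ((C₀ : ℝ) * ((C₀ : ℝ) * P ^ C₀) ^ C₀)
    (by norm_num : (1 : ℝ) < 2)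
  refine ⟨((M + C₀ + C₀ * C₀ : ℕ) : ℝ), by positivity, fun n hn => ?_⟩
  have hn' : (1 : ℝ) ≤ n := by exact_mod_cast hn
  have hpos : (0 : ℝ) < (n : ℝ) + 1 := by linarith
  rw [Real.exp_nat_mul, Real.exp_log hpos]
  have h1 : (C₀ : ℝ) * ((n : ℝ) + 1) ^ C₀ * ((C₀ : ℝ) * ((n : ℝ) + 1) ^ C₀ * P ^ C₀) ^ C₀ =
      ((C₀ : ℝ) * ((C₀ : ℝ) * P ^ C₀) ^ C₀) * ((n : ℝ) + 1) ^ (C₀ + C₀ * C₀) := by
    rw [mul_pow, mul_pow, mul_pow, pow_add, pow_mul]; ring
  have h2 : (2 : ℝ) ^ M ≤ ((n : ℝ) + 1) ^ M := pow_le_pow_left₀ (by norm_num) (by linarith) M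
  rw [h1, add_assoc, pow_add (((n : ℝ) + 1)) M]
  exact mul_le_mul_of_nonneg_right (by linarith) (by positivity)

end Pool.Agent.H11.CV

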